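import Pool.Agent.Q12.PH.Fin

/-!
# Epimorphisms of Poisson Hopf algebras are surjective

Let `k` be a field (of any characteristic). We consider the category `k`-PoissHopf of the Poisson Hopf
algebras over `k` (commutative Hopf algebras with a Poisson bracket such that the comultiplication
and the counit are homomorphisms of Poisson algebras), and prove that a morphism of this category is
an epimorphism if and only if the underlying map is surjective. This answers the question Q1 of
MP_c108b5_al affirmatively, for all fields.

Idea of the proof. Let `f : H ⟶ A` be an epimorphism and `B` its image.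

* The pushout of `f` along itself in the category of Poisson algebras is a Poisson Hopf algebra. So `f`
  is also an epimorphism of Poisson algebras.
* Let `A⁺` be the augmentation ideal. The bracket makes `𝔤 = A⁺ / (A⁺)²` a Lie algebra, and the image of
  `B⁺` is a Lie subalgebra `𝔥`. By the theorem of Poincaré, Birkhoff and Witt there is a `𝔤`-module `E`
  with a vector `e` whose annihilator in `𝔤` is `𝔥`. Then `A ⊗ E` is a Poisson module over `A`, and the
  Hamiltonian derivation of `1 ⊗ e` vanishes on `B`; so it vanishes on `A`, and `𝔥 = 𝔤`.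
* It follows that all brackets of elements of `A` are in the ideal `A B⁺`. So the two maps
  `a ↦ a ⊗ 1` and `a ↦ a₁ ⊗ [a₂]` from `A` to the Poisson algebra `A ⊗ A / A B⁺` (zero bracket on the
  second factor) are homomorphisms, which agree on `B`. Hence they are equal, and `A⁺ = A B⁺`.
* A Hopf subalgebra `B` of a commutative Hopf algebra `A` with `A⁺ = A B⁺` is equal to `A`: this follows
  from a theorem of Takeuchi; we give a direct proof with Fitting ideals.
-/

set_option autoImplicit false

open TensorProduct

universe u

namespace Pool.Agent.Results.MP_c108b5_al.EpisSurjective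

/-- A Poisson bracket on a commutative `k`-algebra `A`: a Lie bracket, bilinear over `k`, with
`{a, bc} = {a, b} c + b {a, c}`. -/
structure PoissonBracket (k A : Type u) [Field k] [CommRing A] [Algebra k A] where
  /-- The bracket `{a, b}`. -/
  br : A → A → A
  add_right : ∀ a b c, br a (b + c) = br a b + br a c
  smul_right : ∀ (r : k) (a b : A), br a (r • b) = r • br a b
  /-- `{a, a} = 0` -/
  self : ∀ a, br a a = 0
  /-- `{a, b} = -{b, a}` -/
  skew : ∀ a b, br a b = -br b a
  /-- The Jacobi identity. -/
  jacobi : ∀ a b c, br a (br b c) = br (br a b) c + br b (br a c)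
  /-- The Leibniz identity. -/
  leibniz : ∀ a b c, br a (b * c) = br a b * c + b * br a c

/-- `T` is the bracket of the tensor product `A ⊗ A`, for a Poisson bracket `P` on `A`: the biadditive
map with `{a ⊗ b, c ⊗ d} = {a, c} ⊗ b d + a c ⊗ {b, d}`. -/
structure IsTensorBracket {k A : Type u} [Field k] [CommRing A] [Algebra k A]
    (P : PoissonBracket k A) (T : A ⊗[k] A → A ⊗[k] A → A ⊗[k] A) : Prop where
  add_left : ∀ x y z, T (x + y) z = T x z + T y z
  add_right : ∀ x y z, T x (y + z) = T x y + T x z
  tmul : ∀ a b c d : A, T (a ⊗ₜ b) (c ⊗ₜ d) = P.br a c ⊗ₜ (b * d) + (a * c) ⊗ₜ P.br b d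

/-- The Poisson bracket `P` makes the commutative Hopf algebra `A` a Poisson Hopf algebra: the
comultiplication `A → A ⊗ A` and the counit `A → k` preserve brackets (`k` has the zero bracket). -/
structure IsPoissonHopf {k A : Type u} [Field k] [CommRing A] [HopfAlgebra k A]
    (P : PoissonBracket k A) : Prop where
  comul_br : ∃ T : A ⊗[k] A → A ⊗[k] A → A ⊗[k] A, IsTensorBracket P T ∧
    ∀ a b : A, Coalgebra.comul (R := k) (P.br a b) =
      T (Coalgebra.comul (R := k) a) (Coalgebra.comul (R := k) b)
  counit_br : ∀ a b : A, Coalgebra.counit (R := k) (P.br a b) = 0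

/-- The map `f` preserves the brackets. -/
def PreservesBrackets {k A B : Type u} [Field k] [CommRing A] [HopfAlgebra k A] [CommRing B]
    [HopfAlgebra k B] (P : PoissonBracket k A) (Q : PoissonBracket k B) (f : A →ₐc[k] B) : Prop :=
  ∀ a b : A, f (P.br a b) = Q.br (f a) (f b)

/-- The morphism `f : A → B` is an epimorphism of the category of Poisson Hopf algebras: any two
morphisms `g, h : B → C` to a Poisson Hopf algebra `C` with `g ∘ f = h ∘ f` are equal. -/
def IsEpi {k A B : Type u} [Field k] [CommRing A] [HopfAlgebra k A] [CommRing B] [HopfAlgebra k B]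
    (Q : PoissonBracket k B) (f : A →ₐc[k] B) : Prop :=
  ∀ (C : Type u) [CommRing C] [HopfAlgebra k C] (R : PoissonBracket k C), IsPoissonHopf R →
    ∀ g h : B →ₐc[k] C, PreservesBrackets Q R g → PreservesBrackets Q R h →
      (∀ a, g (f a) = h (f a)) → ∀ b, g b = h b

/-- The conversion to the structure used in the proof. -/
noncomputable def PoissonBracket.toP {k A : Type u} [Field k] [CommRing A] [Algebra k A]
    (P : PoissonBracket k A) : Pool.Agent.Q12.PH.Poisson k A :=
  ⟨LinearMap.mk₂ k P.br
    (fun a b c => by rw [P.skew, P.add_right, P.skew c a, P.skew c b]; abel)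
    (fun r a b => by rw [P.skew, P.smul_right, P.skew b a]; simp)
    P.add_right (fun r a b => P.smul_right r a b), P.self, P.jacobi, P.leibniz⟩

theorem toP_isPB {k A : Type u} [Field k] [CommRing A] [HopfAlgebra k A]
    (P : PoissonBracket k A) (hP : IsPoissonHopf P) : Pool.Agent.Q12.PH.IsPB P.toP := by
  obtain ⟨T, hT, hc⟩ := hP.comul_br
  have h0 : ∀ y, T 0 y = 0 := fun y => by
    have := hT.add_left 0 0 y
    rw [add_zero] at this
    exact left_eq_add.1 this
  have h0' : ∀ y, T y 0 = 0 := fun y => by
    have := hT.add_right y 0 0
    rw [add_zero] at this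
    exact left_eq_add.1 this
  have key : ∀ x y, T x y = Pool.Agent.Q12.PH.tb P.toP.br P.toP.br x y := by
    intro x y
    induction x using TensorProduct.induction_on with
    | zero => rw [h0]; simp
    | add x x' h h' => rw [hT.add_left, h, h', map_add, LinearMap.add_apply]
    | tmul a b =>
      induction y using TensorProduct.induction_on with
      | zero => rw [h0']; simp
      | add y y' h h' => rw [hT.add_right, h, h', map_add]
      | tmul c d =>
        rw [hT.tmul, Pool.Agent.Q12.PH.tb_tmul]
        rfl
  refine ⟨fun a b => ?_, hP.counit_br⟩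
  rw [← key]
  exact hc a b

/-- The conversion from the structure used in the proof. -/
def ofP {k A : Type u} [Field k] [CommRing A] [Algebra k A]
    (P : Pool.Agent.Q12.PH.Poisson k A) : PoissonBracket k A where
  br a b := P.br a b
  add_right a b c := by rw [map_add]
  smul_right r a b := by rw [map_smul]
  self := P.self
  skew := P.skew
  jacobi := P.jac
  leibniz := P.leib

theorem ofP_isPoissonHopf {k A : Type u} [Field k] [CommRing A] [HopfAlgebra k A]
    (P : Pool.Agent.Q12.PH.Poisson k A) (hP : Pool.Agent.Q12.PH.IsPB P) : IsPoissonHopf (ofP P) := by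
  refine ⟨⟨fun x y => Pool.Agent.Q12.PH.tb P.br P.br x y, ⟨?_, ?_, ?_⟩, hP.co⟩, hP.cu⟩
  · intro x y z
    simp only [map_add, LinearMap.add_apply]
  · intro x y z
    simp only [map_add]
  · intro a b c d
    exact Pool.Agent.Q12.PH.tb_tmul P.br P.br a c b d

/-- **Epimorphisms of Poisson Hopf algebras are surjective**, over every field: a morphism `f` of
Poisson Hopf algebras over `k` is an epimorphism of the category of Poisson Hopf algebras if and only
if it is a surjective map. -/
theorem result {k A B : Type u} [Field k] [CommRing A] [HopfAlgebra k A] [CommRing B]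
    [HopfAlgebra k B] (P : PoissonBracket k A) (Q : PoissonBracket k B)
    (hP : IsPoissonHopf P) (hQ : IsPoissonHopf Q) (f : A →ₐc[k] B) (hf : PreservesBrackets P Q f) :
    IsEpi Q f ↔ Function.Surjective f := by
  constructor
  · intro he
    refine Pool.Agent.Q12.PH.surj (R := P.toP) (P := Q.toP) (toP_isPB P hP) (toP_isPB Q hQ) f hf ?_
    intro C _ _ R hR g h hg hh hgh
    exact BialgHom.ext (he C (ofP R) (ofP_isPoissonHopf R hR) g h hg hh hgh)
  · intro hs C _ _ R _ g h _ _ hgh b
    obtain ⟨a, rfl⟩ := hs b
    exact hgh a

end Pool.Agent.Results.MP_c108b5_al.EpisSurjective
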